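import Pool.Agent.TH161.KS.Full
import Pool.Agent.TH232.KSC.Golden

/-!
# The 1/3-2/3 conjecture holds for all posets of large width

There is an absolute constant `W` such that every finite poset with an antichain of at least `W`
elements has distinct `x`, `y` with `1/3 ≤ Prob[x > y] ≤ 2/3`.  More generally, for every `ε > 0`
the probability can be put in `[1/2 - ε, 1/2 + ε]` for all posets whose width is at least `W(ε)`.
-/

set_option autoImplicit false

namespace Pool.Agent.Results.MP_bd7e44_co.WidePosets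

open Pool.Agent.TH232.KSC Pool.Agent.TH161.LW

theorem result :
    (∃ W : ℕ, ∀ (X : Type) [Fintype X] [PartialOrder X],
      (∃ s : Finset X, IsAntichain (· ≤ ·) (↑s : Set X) ∧ W ≤ s.card) →
      ∃ x y : X, x ≠ y ∧
        (1 / 3 : ℝ) ≤
          (({f : X ≃ Fin (Fintype.card X) | StrictMono (⇑f) ∧ f y < f x}.ncard : ℕ) : ℝ) /
            (({f : X ≃ Fin (Fintype.card X) | StrictMono (⇑f)}.ncard : ℕ) : ℝ) ∧
        (({f : X ≃ Fin (Fintype.card X) | StrictMono (⇑f) ∧ f y < f x}.ncard : ℕ) : ℝ) /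
            (({f : X ≃ Fin (Fintype.card X) | StrictMono (⇑f)}.ncard : ℕ) : ℝ) ≤ (2 / 3 : ℝ)) ∧
    (∀ ε : ℝ, 0 < ε → ∃ W : ℕ, ∀ (X : Type) [Fintype X] [PartialOrder X],
      (∃ s : Finset X, IsAntichain (· ≤ ·) (↑s : Set X) ∧ W ≤ s.card) →
      ∃ x y : X, x ≠ y ∧
        1 / 2 - ε ≤
          (({f : X ≃ Fin (Fintype.card X) | StrictMono (⇑f) ∧ f y < f x}.ncard : ℕ) : ℝ) /
            (({f : X ≃ Fin (Fintype.card X) | StrictMono (⇑f)}.ncard : ℕ) : ℝ) ∧
        (({f : X ≃ Fin (Fintype.card X) | StrictMono (⇑f) ∧ f y < f x}.ncard : ℕ) : ℝ) /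
            (({f : X ≃ Fin (Fintype.card X) | StrictMono (⇑f)}.ncard : ℕ) : ℝ) ≤ 1 / 2 + ε) := by
  have part2 : ∀ ε : ℝ, 0 < ε → ∃ W : ℕ, ∀ (X : Type) [Fintype X] [PartialOrder X],
      (∃ s : Finset X, IsAntichain (· ≤ ·) (↑s : Set X) ∧ W ≤ s.card) →
      ∃ x y : X, x ≠ y ∧
        1 / 2 - ε ≤
          (({f : X ≃ Fin (Fintype.card X) | StrictMono (⇑f) ∧ f y < f x}.ncard : ℕ) : ℝ) /
            (({f : X ≃ Fin (Fintype.card X) | StrictMono (⇑f)}.ncard : ℕ) : ℝ) ∧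
        (({f : X ≃ Fin (Fintype.card X) | StrictMono (⇑f) ∧ f y < f x}.ncard : ℕ) : ℝ) /
            (({f : X ≃ Fin (Fintype.card X) | StrictMono (⇑f)}.ncard : ℕ) : ℝ) ≤ 1 / 2 + ε := by
    intro ε hε
    obtain ⟨W, hW⟩ := Pool.Agent.TH161.KS.kahn_saks (min ε (1 / 2)) (lt_min hε (by norm_num))
      (min_le_right _ _)
    refine ⟨W, fun X _ _ ⟨s, hs, hWs⟩ => ?_⟩
    obtain ⟨y, x, hyx, h1, h2⟩ := hW X s hs hWs
    have hpos : (0 : ℝ) < ext X [] := by exact_mod_cast ext_pos (α := X)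
    have e0 : eN X = ext X [] := ext_nil
    have e1 : eP X y x = ext X [(y, x)] := ext_one y x
    have e2 : eP X x y = ext X [(x, y)] := ext_one x y
    rw [e0, e1] at h1
    rw [e0, e2] at h2
    have hsum := ext_split x y hyx.symm []
    have hsum' : (ext X [(x, y)] : ℝ) + ext X [(y, x)] = ext X [] := by exact_mod_cast hsum
    refine ⟨x, y, hyx.symm, ?_⟩
    rw [ext_one' y x, ext_zero']
    have hm := min_le_left ε (1 / 2)
    constructor
    · rw [le_div_iff₀ hpos]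
      refine le_trans (mul_le_mul_of_nonneg_right ?_ hpos.le) h1
      linarith
    · rw [div_le_iff₀ hpos]
      have h3 : (ext X [(y, x)] : ℝ) ≤ (1 / 2 + min ε (1 / 2)) * ext X [] := by
        linarith
      refine h3.trans (mul_le_mul_of_nonneg_right ?_ hpos.le)
      linarith
  refine ⟨?_, part2⟩
  obtain ⟨W, hW⟩ := part2 (1 / 6) (by norm_num)
  refine ⟨W, fun X _ _ hs => ?_⟩
  obtain ⟨x, y, hxy, h1, h2⟩ := hW X hs
  exact ⟨x, y, hxy, by linarith, by linarith⟩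

end Pool.Agent.Results.MP_bd7e44_co.WidePosets
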